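import Mathlib

set_option autoImplicit false

namespace Pool.Agent.Results.MP_03cbb9_co.MycielskiCounter

/-- `c` is a neighbor-locating colouring with `k` colours -/
def IsNL {V : Type} (G : SimpleGraph V) {k : ℕ} (c : V → Fin k) : Prop :=
  (∀ u v, G.Adj u v → c u ≠ c v) ∧
    ∀ u v, u ≠ v → c u = c v → c '' G.neighborSet u ≠ c '' G.neighborSet v

/-- the neighbor-locating chromatic number -/
noncomputable def chiNL {V : Type} (G : SimpleGraph V) : ℕ :=
  sInf {k | ∃ c : V → Fin k, IsNL G c}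

/-- adjacency of the Mycielski graph: `some (inl u)` is `u`, `some (inr u)` is `u'`, `none` is `w` -/
def myAdj {V : Type} (G : SimpleGraph V) : Option (V ⊕ V) → Option (V ⊕ V) → Prop
  | some (.inl u), some (.inl v) => G.Adj u v
  | some (.inr u), some (.inl v) => G.Adj u v
  | some (.inl u), some (.inr v) => G.Adj u v
  | some (.inr _), none => True
  | none, some (.inr _) => True
  | _, _ => False

/-- the Mycielski graph -/
def mycielski {V : Type} (G : SimpleGraph V) : SimpleGraph (Option (V ⊕ V)) where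
  Adj := myAdj G
  symm := ⟨by
    rintro (_ | u | u) (_ | v | v) h <;> first | exact h | exact G.adj_symm h⟩
  loopless := ⟨by
    rintro (_ | u | u) h <;> first | exact h | exact G.irrefl h⟩

def E : List (Fin 7 × Fin 7) :=
  [(0, 3), (0, 6), (1, 4), (1, 5), (1, 6), (2, 4), (2, 5), (2, 6), (3, 6)]

def G0 : SimpleGraph (Fin 7) where
  Adj u v := (u, v) ∈ E ∨ (v, u) ∈ E
  symm := ⟨fun _ _ h => h.symm⟩
  loopless := ⟨by decide⟩

instance : DecidableRel G0.Adj := fun u v => inferInstanceAs (Decidable ((u, v) ∈ E ∨ (v, u) ∈ E))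

instance : DecidableRel (mycielski G0).Adj := fun u v => by
  change Decidable (myAdj G0 u v)
  rcases u with _ | u | u <;> rcases v with _ | v | v <;> unfold myAdj <;> infer_instance

def Dist {V : Type} (G : SimpleGraph V) {k : ℕ} (c : V → Fin k) (u v : V) : Prop :=
  ∃ j, ¬ ((∃ w, G.Adj u w ∧ c w = j) ↔ ∃ w, G.Adj v w ∧ c w = j)

instance {V : Type} [Fintype V] (G : SimpleGraph V) [DecidableRel G.Adj] {k : ℕ} (c : V → Fin k)
    (u v : V) : Decidable (Dist G c u v) := by unfold Dist; infer_instance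

def NL' {V : Type} (G : SimpleGraph V) {k : ℕ} (c : V → Fin k) : Prop :=
  (∀ u v, G.Adj u v → c u ≠ c v) ∧ ∀ u v, u ≠ v → c u = c v → Dist G c u v

instance {V : Type} [Fintype V] [DecidableEq V] (G : SimpleGraph V) [DecidableRel G.Adj] {k : ℕ}
    (c : V → Fin k) : Decidable (NL' G c) := by unfold NL'; infer_instance

theorem nl_iff {V : Type} (G : SimpleGraph V) {k : ℕ} (c : V → Fin k) : IsNL G c ↔ NL' G c := by
  unfold IsNL NL' Dist
  simp only [Ne, Set.ext_iff, not_forall, Set.mem_image, SimpleGraph.mem_neighborSet]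

theorem mono {V : Type} (G : SimpleGraph V) {k l : ℕ} (h : k ≤ l) (c : V → Fin k)
    (hc : IsNL G c) : IsNL G (Fin.castLE h ∘ c) := by
  have hi := Fin.castLE_injective h
  refine ⟨fun u v huv e => hc.1 u v huv (hi e), fun u v huv e e' => hc.2 u v huv (hi e) ?_⟩
  rw [Set.image_comp, Set.image_comp] at e'
  exact Set.image_injective.mpr hi e'

theorem no4 (c : Fin 7 → Fin 4) : ¬ IsNL G0 c := by
  have key : ∀ a0 a3 : Fin 4, a0 ≠ a3 → ∀ a6 : Fin 4, a0 ≠ a6 → a3 ≠ a6 → ∀ a1 : Fin 4, a1 ≠ a6 →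
      ∀ a2 : Fin 4, a2 ≠ a6 → ∀ a4 a5 : Fin 4, ¬ NL' G0 ![a0, a1, a2, a3, a4, a5, a6] := by
    decide +kernel
  intro hc
  have e : c = ![c 0, c 1, c 2, c 3, c 4, c 5, c 6] := by
    ext i; fin_cases i <;> rfl
  refine key (c 0) (c 3) (hc.1 _ _ (by decide)) (c 6) (hc.1 _ _ (by decide)) (hc.1 _ _ (by decide))
    (c 1) (hc.1 _ _ (by decide)) (c 2) (hc.1 _ _ (by decide)) (c 4) (c 5) ?_
  rw [← e, ← nl_iff]
  exact hc

def col : Option (Fin 7 ⊕ Fin 7) → Fin 5
  | none => 0
  | some (.inl u) => ![0, 0, 2, 2, 3, 4, 4] u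
  | some (.inr u) => ![1, 1, 2, 3, 1, 3, 4] u

/-- A connected graph whose Mycielski graph needs no more colours than the graph itself. -/
theorem result :
    ∃ (V : Type) (_ : Fintype V) (G : SimpleGraph V), G.Connected ∧
      chiNL (mycielski G) ≠ chiNL G + 1 := by
  refine ⟨Fin 7, inferInstance, G0, by decide +kernel, ?_⟩
  have h1 : chiNL (mycielski G0) ≤ 5 :=
    Nat.sInf_le (show 5 ∈ {k | ∃ c : _ → Fin k, IsNL (mycielski G0) c} from
      ⟨col, (nl_iff _ _).mpr (by decide +kernel)⟩)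
  have h2 : 5 ≤ chiNL G0 := by
    have h7 : 7 ∈ {k | ∃ c : Fin 7 → Fin k, IsNL G0 c} :=
      ⟨id, fun u v h => h.ne, fun u v h e => absurd e h⟩
    refine le_csInf ⟨7, h7⟩ ?_
    rintro k ⟨c, hc⟩
    by_contra h
    exact no4 _ (mono G0 (by omega) c hc)
  omega

end Pool.Agent.Results.MP_03cbb9_co.MycielskiCounter
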